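import Pool.Agent.Lib_helper34.BB.Defs
import Pool.Agent.Lib_helper28.BB.MOB
import Pool.Agent.Lib_helper14.BB.PING
import Pool.Agent.Lib_helper14.BB.DISP
import Pool.Agent.Lib_helper14.BB.LAT
import Pool.Agent.Lib_helper20.BB.GROW

/-!
SCH (MP_8d7770_pr): the Schottky group.
-/

open MeasureTheory ProbabilityTheory Set Metric Function
open scoped ENNReal NNReal

namespace Pool.Agent.BB

/-- positive words are reduced -/
theorem sch_toWord {α : Type} [DecidableEq α] (l : List α) :
    FreeGroup.toWord ((l.map FreeGroup.of).prod) = l.map (fun a => (a, true)) := by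
  induction l with
  | nil => simp
  | cons a l ih =>
    have h1 : FreeGroup.reduce (l.map (fun a => (a, true))) = l.map (fun a => (a, true)) := by
      rw [← ih, FreeGroup.reduce_toWord]
    rw [List.map_cons, List.prod_cons, FreeGroup.toWord_mul, FreeGroup.toWord_of, ih,
      List.singleton_append, FreeGroup.reduce.cons, h1]
    cases l with
    | nil => simp
    | cons b l => simp

theorem sch_inj {α : Type} [DecidableEq α] :
    Injective (fun l : List α => (l.map FreeGroup.of).prod) := by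
  intro l l' h
  have h1 := congrArg FreeGroup.toWord h
  simp only [sch_toWord] at h1
  exact List.map_injective_iff.2 (fun a b hab => (Prod.ext_iff.1 hab).1) h1

/-- The vector with height h and horizontal part a. -/
noncomputable def schVec {n : ℕ} (h : ℝ) (a : Fin n → ℝ) : EuclideanSpace ℝ (Fin (n + 1)) :=
  WithLp.toLp 2 (Fin.cons h a : Fin (n + 1) → ℝ)

theorem schVec_zero {n : ℕ} (h : ℝ) (a : Fin n → ℝ) : schVec h a 0 = h := rfl

theorem schVec_succ {n : ℕ} (h : ℝ) (a : Fin n → ℝ) (k : Fin n) : schVec h a k.succ = a k := rfl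

theorem sch_dist {n : ℕ} (a b : Fin n → ℝ) :
    dist (schVec 0 a) (schVec 0 b) = √(∑ k, (a k - b k) ^ 2) := by
  rw [EuclideanSpace.dist_eq, Fin.sum_univ_succ]
  simp only [schVec_zero, schVec_succ, dist_self, Real.dist_eq, sq_abs]
  norm_num

theorem sch_coord {n : ℕ} (x y : EuclideanSpace ℝ (Fin (n + 1))) (k : Fin (n + 1)) :
    |x k - y k| ≤ dist x y := by
  rw [EuclideanSpace.dist_eq]
  apply Real.le_sqrt_of_sq_le
  rw [sq_abs, ← sq_abs (x k - y k), ← Real.dist_eq]
  exact Finset.single_le_sum (f := fun i => dist (x i) (y i) ^ 2) (fun i _ => sq_nonneg _)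
    (Finset.mem_univ k)

noncomputable def schP {n N : ℕ} : Option (Fin n → Fin N) → Fin n → ℝ
  | some z => fun k => 6 * ((z k : ℕ) : ℝ)
  | none => fun k => if (k : ℕ) = 0 then -6 else 0

noncomputable def schM {n N : ℕ} : Option (Fin n → Fin N) → Fin n → ℝ
  | some z => fun k => 6 * ((z k : ℕ) : ℝ) + if (k : ℕ) = 0 then 3 else 0
  | none => fun k => if (k : ℕ) = 0 then -3 else 0

theorem sch_nat6 {a b : ℕ} (h : a ≠ b) : (6 : ℝ) ≤ |6 * (a : ℝ) - 6 * (b : ℝ)| := by
  rcases lt_or_gt_of_ne h with h | h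
  · have : (a : ℝ) + 1 ≤ b := by exact_mod_cast h
    rw [abs_sub_comm]
    exact le_trans (by linarith) (le_abs_self _)
  · have : (b : ℝ) + 1 ≤ a := by exact_mod_cast h
    exact le_trans (by linarith) (le_abs_self _)

theorem sch_pp {n N : ℕ} (hn : 1 ≤ n) (i j : Option (Fin n → Fin N)) (hij : i ≠ j) :
    3 ≤ dist (schVec 0 (schP i)) (schVec 0 (schP j)) := by
  have key : ∃ k : Fin n, 3 ≤ |schP i k - schP j k| := by
    rcases i with _ | z <;> rcases j with _ | z'
    · exact absurd rfl hij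
    · refine ⟨⟨0, hn⟩, ?_⟩
      have h0 : (0 : ℝ) ≤ ((z' ⟨0, hn⟩ : ℕ) : ℝ) := Nat.cast_nonneg _
      simp only [schP, if_true]
      rw [abs_sub_comm]
      exact le_trans (by linarith) (le_abs_self _)
    · refine ⟨⟨0, hn⟩, ?_⟩
      have h0 : (0 : ℝ) ≤ ((z ⟨0, hn⟩ : ℕ) : ℝ) := Nat.cast_nonneg _
      simp only [schP, if_true]
      exact le_trans (by linarith) (le_abs_self _)
    · have hne : z ≠ z' := fun h => hij (by rw [h])
      obtain ⟨k, hk⟩ := Function.ne_iff.1 hne
      refine ⟨k, ?_⟩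
      simp only [schP]
      have := sch_nat6 (a := (z k : ℕ)) (b := (z' k : ℕ)) (fun h => hk (Fin.ext h))
      linarith
  obtain ⟨k, hk⟩ := key
  exact hk.trans (sch_coord (schVec 0 (schP i)) (schVec 0 (schP j)) k.succ)

theorem sch_mm {n N : ℕ} (hn : 1 ≤ n) (i j : Option (Fin n → Fin N)) (hij : i ≠ j) :
    3 ≤ dist (schVec 0 (schM i)) (schVec 0 (schM j)) := by
  have key : ∃ k : Fin n, 3 ≤ |schM i k - schM j k| := by
    rcases i with _ | z <;> rcases j with _ | z'
    · exact absurd rfl hij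
    · refine ⟨⟨0, hn⟩, ?_⟩
      have h0 : (0 : ℝ) ≤ ((z' ⟨0, hn⟩ : ℕ) : ℝ) := Nat.cast_nonneg _
      simp only [schM, if_true]
      rw [abs_sub_comm]
      exact le_trans (by linarith) (le_abs_self _)
    · refine ⟨⟨0, hn⟩, ?_⟩
      have h0 : (0 : ℝ) ≤ ((z ⟨0, hn⟩ : ℕ) : ℝ) := Nat.cast_nonneg _
      simp only [schM, if_true]
      exact le_trans (by linarith) (le_abs_self _)
    · have hne : z ≠ z' := fun h => hij (by rw [h])
      obtain ⟨k, hk⟩ := Function.ne_iff.1 hne
      refine ⟨k, ?_⟩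
      simp only [schM]
      have := sch_nat6 (a := (z k : ℕ)) (b := (z' k : ℕ)) (fun h => hk (Fin.ext h))
      rw [add_sub_add_right_eq_sub]
      linarith
  obtain ⟨k, hk⟩ := key
  exact hk.trans (sch_coord (schVec 0 (schM i)) (schVec 0 (schM j)) k.succ)

theorem sch_pm {n N : ℕ} (hn : 1 ≤ n) (i j : Option (Fin n → Fin N)) :
    3 ≤ dist (schVec 0 (schP i)) (schVec 0 (schM j)) := by
  have key : 3 ≤ |schP i ⟨0, hn⟩ - schM j ⟨0, hn⟩| := by
    rcases i with _ | z <;> rcases j with _ | z'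
    · simp only [schP, schM, if_true]
      norm_num
    · have h0 : (0 : ℝ) ≤ ((z' ⟨0, hn⟩ : ℕ) : ℝ) := Nat.cast_nonneg _
      simp only [schP, schM, if_true]
      rw [abs_sub_comm]
      exact le_trans (by linarith) (le_abs_self _)
    · have h0 : (0 : ℝ) ≤ ((z ⟨0, hn⟩ : ℕ) : ℝ) := Nat.cast_nonneg _
      simp only [schP, schM, if_true]
      exact le_trans (by linarith) (le_abs_self _)
    · simp only [schP, schM, if_true]
      rcases Nat.lt_or_ge (z' ⟨0, hn⟩ : ℕ) (z ⟨0, hn⟩ : ℕ) with h | h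
      · have : (((z' ⟨0, hn⟩ : ℕ) : ℝ)) + 1 ≤ ((z ⟨0, hn⟩ : ℕ) : ℝ) := by exact_mod_cast h
        exact le_trans (by linarith) (le_abs_self _)
      · have : ((z ⟨0, hn⟩ : ℕ) : ℝ) ≤ ((z' ⟨0, hn⟩ : ℕ) : ℝ) := by exact_mod_cast h
        rw [abs_sub_comm]
        exact le_trans (by linarith) (le_abs_self _)
  exact key.trans (sch_coord (schVec 0 (schP i)) (schVec 0 (schM j)) (⟨0, hn⟩ : Fin n).succ)

theorem sch_height {n : ℕ} (o z : HSpace n) (ho : o.1 0 = 2) (h : hdist 1 o z < 1 / 2) :
    1 < z.1 0 := by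
  by_contra hz
  rw [not_lt] at hz
  have hz0 : 0 < z.1 0 := z.2
  unfold hdist at h
  rw [Real.sqrt_one, div_one, ho] at h
  have h1 : Real.arsinh (dist o.1 z.1 / (2 * √(2 * z.1 0))) < 1 / 4 := by linarith
  have h2 : dist o.1 z.1 / (2 * √(2 * z.1 0)) < Real.sinh (1 / 4) := by
    have := Real.sinh_lt_sinh.2 h1
    rwa [Real.sinh_arsinh] at this
  have h3 : Real.sinh (1 / 4) ≤ 7 / 24 := by
    have e1 : (3 / 4 : ℝ) ≤ Real.exp (-(1 / 4)) := by
      have := Real.add_one_le_exp (-(1 / 4) : ℝ)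
      linarith
    have e2 : Real.exp (1 / 4) ≤ 4 / 3 := by
      have e3 : Real.exp (1 / 4) * Real.exp (-(1 / 4)) = 1 := by
        rw [← Real.exp_add]; norm_num
      have e4 : 0 < Real.exp (1 / 4) := Real.exp_pos _
      nlinarith
    rw [Real.sinh_eq]
    linarith
  have h4 : 1 ≤ dist o.1 z.1 := by
    have := sch_coord o.1 z.1 0
    rw [ho] at this
    refine le_trans ?_ this
    refine le_trans ?_ (le_abs_self _)
    linarith
  have h5 : √(2 * z.1 0) ≤ 3 / 2 := by
    apply Real.sqrt_le_iff.2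
    constructor
    · norm_num
    · nlinarith
  have h6 : 0 < √(2 * z.1 0) := Real.sqrt_pos.2 (by linarith)
  have h7 : 1 / 3 ≤ dist o.1 z.1 / (2 * √(2 * z.1 0)) := by
    rw [le_div_iff₀ (by linarith)]
    linarith
  linarith

theorem sch_word {α : Type} (i : α) (l : List α) :
    FreeGroup.map some (((i :: l).map FreeGroup.of).prod) =
      ((some i :: l.map some).map FreeGroup.of).prod := by
  rw [map_list_prod]
  congr 1
  simp [List.map_map, Function.comp_def]

theorem sch_zip {α : Type} (f : Option α → Option α → ℝ) (m : α → α → ℝ)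
    (hm : ∀ a b, 0 < m a b) (hf : ∀ a b, f (some a) (some b) = Real.log (m a b)) (i : α)
    (l : List α) :
    ((some i :: l.map some).zipWith f (l.map some)).sum =
      Real.log ((i :: l).zipWith m l).prod ∧ 0 < ((i :: l).zipWith m l).prod := by
  induction l generalizing i with
  | nil => simp
  | cons b l ih =>
    obtain ⟨h1, h2⟩ := ih b
    simp only [List.map_cons, List.zipWith_cons_cons, List.sum_cons, List.prod_cons]
    refine ⟨?_, mul_pos (hm i b) h2⟩
    rw [Real.log_mul (hm i b).ne' h2.ne', hf]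
    congr 1

/-- SCH -/
theorem schottky_proof (n : ℕ) (hn : 1 ≤ n) : ∃ (α : Type) (_ : Fintype α)
    (_ : DecidableEq α) (θ : FreeGroup (Option α) →* Equiv.Perm (HSpace n))
    (F : Set (HSpace n)) (o : HSpace n) (r δ c : ℝ),
    (∀ γ z w, hdist 1 (θ γ z) (θ γ w) = hdist 1 z w) ∧
    (∀ γ, MeasurePreserving (θ γ) (hvol 1 n) (hvol 1 n)) ∧ MeasurableSet F ∧ FD θ F ∧
    (∀ (x : HSpace n) (R : ℝ), {γ | ∃ z, hdist 1 x z ≤ R ∧ θ γ z ∈ F}.Finite) ∧
    0 < r ∧ (∀ z, hdist 1 o z < r → z ∈ F) ∧ (n : ℝ) / 2 < δ ∧ 0 < c ∧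
    ∀ t : ℝ, 0 ≤ t → ∃ W : Finset (FreeGroup α), W.Nonempty ∧
      c * Real.exp (δ * t) ≤ W.card ∧
      ∀ w ∈ W, hdist 1 o (θ (FreeGroup.map some w) o) ≤ t := by
  classical
  obtain ⟨N, δ, hN, hδ, hlat⟩ := lattice_proof n hn
  set α : Type := Fin n → Fin N with hα
  have hne : Nonempty α := ⟨fun _ => ⟨0, hN⟩⟩
  set cp : Option α → EuclideanSpace ℝ (Fin (n + 1)) := fun i => schVec 0 (schP i) with hcpdef
  set cm : Option α → EuclideanSpace ℝ (Fin (n + 1)) := fun i => schVec 0 (schM i) with hcmdef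
  have hcp : ∀ i, cp i 0 = 0 := fun i => rfl
  have hcm : ∀ i, cm i 0 = 0 := fun i => rfl
  have hpp : ∀ i j, i ≠ j → 3 ≤ dist (cp i) (cp j) := fun i j h => sch_pp hn i j h
  have hmm : ∀ i j, i ≠ j → 3 ≤ dist (cm i) (cm j) := fun i j h => sch_mm hn i j h
  have hpm : ∀ i j, 3 ≤ dist (cp i) (cm j) := fun i j => sch_pm hn i j
  choose g hg1 hg2 hg3 hg4 using fun i => mob_proof n (cm i) (cp i) (hcm i) (hcp i)
  choose g' hg'1 hg'2 hg'3 hg'4 using fun i => mob_proof n (cp i) (cm i) (hcp i) (hcm i)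
  have hgg' : ∀ i, (g i).symm = g' i := by
    intro i
    ext z
    apply Subtype.ext
    rw [hg2, hg'1]
  set θ : FreeGroup (Option α) →* Equiv.Perm (HSpace n) := FreeGroup.lift g with hθdef
  have hθof : ∀ i, θ (FreeGroup.of i) = g i := fun i => FreeGroup.lift_apply_of
  have hθinv : ∀ i, θ (FreeGroup.of i)⁻¹ = g' i := by
    intro i
    rw [map_inv, hθof, ← hgg' i]
    rfl
  have hiso : ∀ γ z w, hdist 1 (θ γ z) (θ γ w) = hdist 1 z w := by
    intro γ
    induction γ using FreeGroup.induction_on with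
    | C1 => intro z w; rw [map_one]; rfl
    | of i => intro z w; rw [hθof]; exact hg3 i z w
    | inv_of i _ => intro z w; rw [hθinv]; exact hg'3 i z w
    | mul x y hx hy =>
      intro z w
      rw [map_mul, Equiv.Perm.mul_apply, Equiv.Perm.mul_apply, hx, hy]
  have hmp : ∀ γ, MeasurePreserving (θ γ) (hvol 1 n) (hvol 1 n) := by
    intro γ
    induction γ using FreeGroup.induction_on with
    | C1 => rw [map_one]; exact MeasurePreserving.id _
    | of i => rw [hθof]; exact hg4 i
    | inv_of i _ => rw [hθinv]; exact hg'4 i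
    | mul x y hx hy =>
      rw [map_mul, Equiv.Perm.coe_mul]
      exact hx.comp hy
  obtain ⟨hFD, hfin⟩ := ping_proof n cp cm hcp hcm hpp hmm hpm θ
    (fun i z => by rw [hθof]; exact hg1 i z) (fun i z => by rw [hθof]; exact hg2 i z)
  set F : Set (HSpace n) := {z | ∀ i, 1 < dist z.1 (cp i) ∧ 1 ≤ dist z.1 (cm i)} with hFdef
  have hval : Measurable (fun z : HSpace n => z.1) := measurable_subtype_coe
  have hF : MeasurableSet F := by
    have : F = ⋂ i, ({z : HSpace n | 1 < dist z.1 (cp i)} ∩ {z | 1 ≤ dist z.1 (cm i)}) := by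
      ext z; simp [hFdef]
    rw [this]
    exact MeasurableSet.iInter fun i =>
      (measurableSet_lt measurable_const (hval.dist measurable_const)).inter
      (measurableSet_le measurable_const (hval.dist measurable_const))
  -- the base point
  set o : HSpace n := ⟨schVec 2 (fun _ => 0), by rw [schVec_zero]; norm_num⟩ with hodef
  have ho0 : o.1 0 = 2 := rfl
  have ho : ∀ i, 1 ≤ dist o.1 (cm i) := by
    intro i
    refine le_trans ?_ (sch_coord o.1 (cm i) 0)
    rw [ho0, hcm]
    norm_num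
  obtain ⟨D, hD⟩ := disp_proof n cp cm hcp hcm hpm θ
    (fun i z => by rw [hθof]; exact hg1 i z) o ho
  -- the cost function
  set m : α → α → ℝ := fun i j => (√(∑ k : Fin n, (6 * ((j k : ℕ) : ℝ) - 6 * ((i k : ℕ) : ℝ) -
        (if (k : ℕ) = 0 then 3 else 0)) ^ 2) + 1) ^ 2 with hmdef
  have hmd : ∀ i j, m i j = (dist (cp (some j)) (cm (some i)) + 1) ^ 2 := by
    intro i j
    simp only [hmdef, hcpdef, hcmdef, sch_dist, schP, schM]
    congr 3
    apply Finset.sum_congr rfl
    intro k _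
    rw [sub_sub]
  have hm : ∀ i j, 2 ≤ m i j := by
    intro i j
    rw [hmd]
    have := hpm (some j) (some i)
    nlinarith
  have hδ0 : 0 < δ := lt_of_le_of_lt (by positivity) hδ
  obtain ⟨c₀, hc₀, hgrow⟩ := grow_proof m hm δ hδ0 hlat
  refine ⟨α, inferInstance, inferInstance, θ, F, o, 1 / 2, δ, min c₀ 1 * Real.exp (-(δ * D)),
    hiso, hmp, hF, hFD, hfin, by norm_num, ?_, hδ, ?_, ?_⟩
  · intro z hz
    have h1 := sch_height o z ho0 hz
    intro i
    constructor
    · refine lt_of_lt_of_le h1 (le_trans ?_ (sch_coord z.1 (cp i) 0))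
      rw [hcp, sub_zero]
      exact le_abs_self _
    · refine le_trans h1.le (le_trans ?_ (sch_coord z.1 (cm i) 0))
      rw [hcm, sub_zero]
      exact le_abs_self _
  · exact mul_pos (lt_min hc₀ one_pos) (Real.exp_pos _)
  · intro t ht
    rcases lt_or_ge t D with htD | htD
    · refine ⟨{1}, Finset.singleton_nonempty _, ?_, ?_⟩
      · rw [Finset.card_singleton, Nat.cast_one, mul_assoc, ← Real.exp_add]
        have h1 : Real.exp (-(δ * D) + δ * t) ≤ 1 := by
          rw [Real.exp_le_one_iff]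
          nlinarith
        calc min c₀ 1 * Real.exp (-(δ * D) + δ * t) ≤ 1 * 1 :=
              mul_le_mul (min_le_right _ _) h1 (Real.exp_pos _).le zero_le_one
          _ = 1 := one_mul 1
      · intro w hw
        rw [Finset.mem_singleton.1 hw, map_one, map_one]
        have : hdist 1 o ((1 : Equiv.Perm (HSpace n)) o) = 0 := by
          simp [hdist]
        rw [this]
        exact ht
    · obtain ⟨S, hS1, hS2⟩ := hgrow (Real.exp (t - D)) (Real.one_le_exp (by linarith))
      have hcard : min c₀ 1 * Real.exp (-(δ * D)) * Real.exp (δ * t) ≤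
          ((S.image (fun l : List α => (l.map FreeGroup.of).prod)).card : ℝ) := by
        rw [Finset.card_image_of_injective _ sch_inj]
        refine le_trans ?_ hS1
        rw [← Real.exp_mul, mul_assoc, ← Real.exp_add]
        have h1 : -(δ * D) + δ * t = (t - D) * δ := by ring
        rw [h1]
        exact mul_le_mul_of_nonneg_right (min_le_left _ _) (Real.exp_pos _).le
      refine ⟨S.image (fun l : List α => (l.map FreeGroup.of).prod), ?_, hcard, ?_⟩
      · rw [← Finset.card_pos]
        have h1 : (0 : ℝ) < ((S.image (fun l : List α => (l.map FreeGroup.of).prod)).card : ℝ) :=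
          lt_of_lt_of_le (mul_pos (mul_pos (lt_min hc₀ one_pos) (Real.exp_pos _))
            (Real.exp_pos _)) hcard
        exact_mod_cast h1
      · intro w hw
        obtain ⟨l, hl, rfl⟩ := Finset.mem_image.1 hw
        obtain ⟨i, l', rfl, hle⟩ := hS2 l hl
        rw [sch_word]
        refine (hD (some i) (l'.map some)).trans ?_
        obtain ⟨h1, h2⟩ := sch_zip
          (fun a b => 2 * Real.log (dist (cp b) (cm a) + 1)) m (fun a b => by
            linarith [hm a b]) (fun a b => by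
            rw [hmd, Real.log_pow]
            norm_num) i l'
        rw [h1]
        have h3 : Real.log ((i :: l').zipWith m l').prod ≤ t - D := by
          rw [Real.log_le_iff_le_exp h2]
          exact hle
        linarith

end Pool.Agent.BB
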