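import Pool.Agent.Lib_helper34.BB.Defs

/-!
LAB (MP_8d7770_pr): the labels are independent and identically distributed.
-/

open MeasureTheory ProbabilityTheory Set Metric Function
open scoped ENNReal NNReal

namespace Pool.Agent.BB

theorem lab_cnt_biUnion {H ι : Type*} [DecidableEq ι] (C : Set H) (A : ι → Set H) (s : Finset ι)
    (hA : Pairwise (Disjoint on A)) :
    cnt C (⋃ i ∈ s, A i) = ∑ i ∈ s, cnt C (A i) := by
  induction s using Finset.induction_on with
  | empty => simp [cnt]
  | insert a s ha ih =>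
    rw [Finset.sum_insert ha, ← ih, Finset.set_biUnion_insert]
    unfold cnt
    rw [inter_union_distrib_left, encard_union_eq]
    rw [Set.disjoint_left]
    intro x hx hx'
    obtain ⟨_, hx'⟩ := hx'
    simp only [mem_iUnion] at hx'
    obtain ⟨i, hi, hxi⟩ := hx'
    have hai : a ≠ i := fun h => ha (h ▸ hi)
    exact (Set.disjoint_left.1 (hA hai)) hx.2 hxi

theorem lab_group {Ω : Type*} [MeasurableSpace Ω] {ι T L : Type*} [Fintype ι] [Fintype T]
    [MeasurableSpace L] [Countable L] [MeasurableSingletonClass L] (P : Measure Ω)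
    [IsProbabilityMeasure P] (Z : ι × T → Ω → L) (hZ : ∀ p, Measurable (Z p))
    (h : iIndepFun Z P) : iIndepFun (fun i ω => fun t : T => Z (i, t) ω) P := by
  have hm : ∀ i, Measurable (fun ω => fun t : T => Z (i, t) ω) :=
    fun i => measurable_pi_lambda _ fun t => hZ _
  rw [iIndepFun_iff_map_fun_eq_pi_map (fun i => (hm i).aemeasurable)]
  have h1 := iIndepFun.map_fun_eq_pi_map (fun p => (hZ p).aemeasurable) h
  apply Measure.ext_of_singleton
  intro a
  rw [Measure.pi_singleton]
  have hp : ∀ i, P.map (fun ω => fun t : T => Z (i, t) ω) {a i} =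
      ∏ t, P.map (Z (i, t)) {a i t} := by
    intro i
    have h2 : iIndepFun (fun t => Z (i, t)) P :=
      h.precomp (g := fun t : T => (i, t)) (fun x y hxy => by simpa using hxy)
    rw [iIndepFun.map_fun_eq_pi_map (fun t => (hZ (i, t)).aemeasurable) h2, Measure.pi_singleton]
  rw [Finset.prod_congr rfl fun i _ => hp i]
  have h3 : P.map (fun ω => fun i => fun t : T => Z (i, t) ω) {a} =
      P.map (fun ω => fun p => Z p ω) {fun p => a p.1 p.2} := by
    rw [Measure.map_apply (measurable_pi_lambda _ hm) (measurableSet_singleton _),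
      Measure.map_apply (measurable_pi_lambda _ hZ) (measurableSet_singleton _)]
    congr 1
    ext ω
    simp only [mem_preimage, mem_singleton_iff, funext_iff, Prod.forall]
  rw [h3, h1, Measure.pi_singleton, Fintype.prod_prod_type]

/-- The atoms of a finite family. -/
def labAtom {H : Type*} {k : ℕ} (q : Fin k → Set H) (S : Finset (Fin k)) : Set H :=
  {x | (∃ j, x ∈ q j) ∧ ∀ j, x ∈ q j ↔ j ∈ S}

theorem labAtom_disj {H : Type*} {k : ℕ} (q : Fin k → Set H) :
    Pairwise (Disjoint on (labAtom q)) := by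
  intro S S' hS
  rw [Function.onFun, Set.disjoint_left]
  intro x hx hx'
  apply hS
  ext j
  rw [← hx.2 j, hx'.2 j]

theorem labAtom_union {H : Type*} {k : ℕ} (q : Fin k → Set H) (j : Fin k) :
    q j = ⋃ S ∈ (Finset.univ : Finset (Finset (Fin k))).filter (fun S => j ∈ S),
      labAtom q S := by
  classical
  ext x
  simp only [mem_iUnion, Finset.mem_filter, Finset.mem_univ, true_and]
  constructor
  · intro hx
    refine ⟨Finset.univ.filter (fun i => x ∈ q i), by simpa using hx, ⟨j, hx⟩, fun i => ?_⟩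
    simp
  · rintro ⟨S, hj, hx⟩
    exact (hx.2 j).2 hj

theorem labAtom_meas {H : Type*} [MeasurableSpace H] {k : ℕ} (q : Fin k → Set H)
    (hq : ∀ j, MeasurableSet (q j)) (S : Finset (Fin k)) : MeasurableSet (labAtom q S) := by
  classical
  have : labAtom q S = (⋃ j, q j) ∩ ⋂ j, (if j ∈ S then q j else (q j)ᶜ) := by
    ext x
    simp only [labAtom, mem_ofPred_eq, mem_inter_iff, mem_iUnion, mem_iInter]
    refine and_congr Iff.rfl (forall_congr' fun j => ?_)
    by_cases hj : j ∈ S <;> simp [hj]
  rw [this]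
  refine (MeasurableSet.iUnion hq).inter (MeasurableSet.iInter fun j => ?_)
  split_ifs
  · exact hq j
  · exact (hq j).compl

theorem lab_law_eq {H : Type*} [MeasurableSpace H] {μ : Measure H} {Ω : Type*}
    [MeasurableSpace Ω] (P : Measure Ω) [IsProbabilityMeasure P] (X : Ω → Set H)
    (hX : IsPoisson P μ X) (B B' : Set H) (hB : MeasurableSet B) (hB' : MeasurableSet B')
    (hfin : μ B ≠ ∞) (h : μ B = μ B') :
    P.map (fun o => cnt (X o) B) = P.map (fun o => cnt (X o) B') := by
  have hm := hX.meas B hB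
  have hm' := hX.meas B' hB'
  have hk : ∀ k : ℕ, P.map (fun o => cnt (X o) B) {(k : ℕ∞)} =
      P.map (fun o => cnt (X o) B') {(k : ℕ∞)} := by
    intro k
    rw [Measure.map_apply hm (measurableSet_singleton _),
      Measure.map_apply hm' (measurableSet_singleton _)]
    have h1 := hX.law B hB hfin k
    have h2 := hX.law B' hB' (h ▸ hfin) k
    rw [← h] at h2
    have e1 : (fun o => cnt (X o) B) ⁻¹' {(k : ℕ∞)} = {o | cnt (X o) B = k} := rfl
    have e2 : (fun o => cnt (X o) B') ⁻¹' {(k : ℕ∞)} = {o | cnt (X o) B' = k} := rfl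
    rw [e1, e2, h1, h2]
  have : IsProbabilityMeasure (P.map (fun o => cnt (X o) B)) :=
    Measure.isProbabilityMeasure_map hm.aemeasurable
  have : IsProbabilityMeasure (P.map (fun o => cnt (X o) B')) :=
    Measure.isProbabilityMeasure_map hm'.aemeasurable
  apply Measure.ext_of_singleton
  intro a
  induction a using ENat.recTopCoe with
  | coe k => exact hk k
  | top =>
    have hc : ({⊤} : Set ℕ∞) = (⋃ k : ℕ, {(k : ℕ∞)})ᶜ := by
      ext x
      simp only [mem_singleton_iff, mem_compl_iff, mem_iUnion, not_exists]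
      constructor
      · rintro rfl k hk
        exact ENat.top_ne_natCast k hk
      · intro hx
        induction x using ENat.recTopCoe with
        | coe m => exact absurd rfl (hx m)
        | top => rfl
    have hdis : Pairwise (Disjoint on fun k : ℕ => ({(k : ℕ∞)} : Set ℕ∞)) := by
      intro k l hkl
      rw [Function.onFun, Set.disjoint_singleton]
      exact_mod_cast hkl
    rw [hc, measure_compl (MeasurableSet.iUnion fun k => measurableSet_singleton _)
      (measure_ne_top _ _), measure_compl (MeasurableSet.iUnion fun k =>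
      measurableSet_singleton _) (measure_ne_top _ _),
      measure_iUnion hdis (fun k => measurableSet_singleton _),
      measure_iUnion hdis (fun k => measurableSet_singleton _)]
    simp only [hk, measure_univ]

/-- LAB -/
theorem labels_proof {H : Type} [MeasurableSpace H] {μ : Measure H} {Ω : Type*}
    [MeasurableSpace Ω] (P : Measure Ω) [IsProbabilityMeasure P] (X : Ω → Set H)
    (hX : IsPoisson P μ X) {Γ : Type} [Group Γ] (θ : Γ →* Equiv.Perm H)
    (hmp : ∀ γ, MeasurePreserving (θ γ) μ μ) (F : Set H) (hFD : FD θ F) (k : ℕ)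
    (q : Fin k → Set H) (hq : ∀ j, MeasurableSet (q j)) (hqF : ∀ j, q j ⊆ F)
    (hqfin : ∀ j, μ (q j) ≠ ∞) :
    iIndepFun (fun (γ : Γ) (o : Ω) => fun j : Fin k => cnt (X o) (θ γ ⁻¹' q j)) P ∧
    ∀ γ : Γ, P.map (fun (o : Ω) => fun j : Fin k => cnt (X o) (θ γ ⁻¹' q j)) =
      P.map (fun (o : Ω) => fun j : Fin k => cnt (X o) (θ (1 : Γ) ⁻¹' q j)) := by
  classical
  -- the counts of the atoms
  set Z : Γ × Finset (Fin k) → Ω → ℕ∞ := fun p o => cnt (X o) (θ p.1 ⁻¹' labAtom q p.2) with hZdef
  have hAm : ∀ S, MeasurableSet (labAtom q S) := labAtom_meas q hq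
  have hZm : ∀ p, Measurable (Z p) := fun p => hX.meas _ ((hmp p.1).measurable (hAm p.2))
  have hAF : ∀ S, labAtom q S ⊆ F := by
    rintro S x ⟨⟨j, hj⟩, _⟩
    exact hqF j hj
  have hAfin : ∀ S, μ (labAtom q S) ≠ ∞ := by
    intro S
    have hsub : labAtom q S ⊆ ⋃ j, q j := by
      rintro x ⟨⟨j, hj⟩, _⟩
      exact mem_iUnion.2 ⟨j, hj⟩
    refine ne_top_of_le_ne_top ?_ (measure_mono hsub)
    refine ne_top_of_le_ne_top ?_ (measure_iUnion_le _)
    rw [tsum_fintype]
    exact ENNReal.sum_ne_top.2 fun j _ => hqfin j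
  have hdisj : Pairwise (Disjoint on fun p : Γ × Finset (Fin k) => θ p.1 ⁻¹' labAtom q p.2) := by
    rintro ⟨γ, S⟩ ⟨γ', S'⟩ hne
    rw [Function.onFun, Set.disjoint_left]
    intro z hz hz'
    have h1 : γ = γ' := hFD.uniq z γ γ' (hAF S hz) (hAF S' hz')
    subst h1
    have h2 : S ≠ S' := fun h => hne (by rw [h])
    exact (Set.disjoint_left.1 (labAtom_disj q h2)) hz hz'
  -- the labels are functions of the atom counts
  set G : (Finset (Fin k) → ℕ∞) → (Fin k → ℕ∞) := fun v j =>
    ∑ S ∈ (Finset.univ : Finset (Finset (Fin k))).filter (fun S => j ∈ S), v S with hGdef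
  have hGm : Measurable G := measurable_of_countable G
  have hGZ : ∀ γ : Γ, (fun (o : Ω) => fun j : Fin k => cnt (X o) (θ γ ⁻¹' q j)) =
      G ∘ (fun o => fun S => Z (γ, S) o) := by
    intro γ
    funext o j
    simp only [Function.comp, hGdef, hZdef]
    have h1 : θ γ ⁻¹' q j =
        ⋃ S ∈ (Finset.univ : Finset (Finset (Fin k))).filter (fun S => j ∈ S),
          θ γ ⁻¹' labAtom q S := by
      conv_lhs => rw [labAtom_union q j]
      simp only [preimage_iUnion]
    rw [h1, lab_cnt_biUnion]
    intro S S' hS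
    exact hdisj (i := (γ, S)) (j := (γ, S')) (fun h => hS (by simpa using h))
  -- independence of finitely many atom counts
  have hZind : ∀ s : Finset Γ, iIndepFun (fun (p : s × Finset (Fin k)) => Z (p.1.1, p.2)) P := by
    intro s
    set m := Fintype.card (s × Finset (Fin k)) with hm
    let ee : (s × Finset (Fin k)) ≃ Fin m := Fintype.equivFin _
    have h1 := hX.indep m (fun i => θ (ee.symm i).1.1 ⁻¹' labAtom q (ee.symm i).2)
      (fun i => (hmp _).measurable (hAm _)) (by
        intro i j hij
        refine hdisj (i := ((ee.symm i).1.1, (ee.symm i).2))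
          (j := ((ee.symm j).1.1, (ee.symm j).2)) (fun h => hij ?_)
        apply ee.symm.injective
        have h2 := Prod.ext_iff.1 h
        exact Prod.ext (Subtype.ext h2.1) h2.2)
    have h2 := h1.precomp (g := ee) ee.injective
    simpa only [Equiv.symm_apply_apply] using h2
  have hind1 : iIndepFun (fun (γ : Γ) (o : Ω) => fun S => Z (γ, S) o) P := by
    rw [iIndepFun_iff_finset]
    intro s
    exact lab_group P (fun p : s × Finset (Fin k) => Z (p.1.1, p.2)) (fun p => hZm _) (hZind s)
  refine ⟨?_, fun γ => ?_⟩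
  · have h1 := hind1.comp (fun _ => G) (fun _ => hGm)
    have h2 : (fun (γ : Γ) (o : Ω) => fun j : Fin k => cnt (X o) (θ γ ⁻¹' q j)) =
        fun γ => G ∘ (fun o => fun S => Z (γ, S) o) := funext hGZ
    rw [h2]
    exact h1
  · have hvm : ∀ γ : Γ, Measurable (fun o => fun S => Z (γ, S) o) :=
      fun γ => measurable_pi_lambda _ fun S => hZm _
    rw [hGZ γ, hGZ 1, ← Measure.map_map hGm (hvm γ), ← Measure.map_map hGm (hvm 1)]
    congr 1
    have hI : ∀ γ : Γ, iIndepFun (fun S => Z (γ, S)) P := by
      intro γ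
      let g : Finset (Fin k) → (({γ} : Finset Γ) : Type) × Finset (Fin k) :=
        fun S => (⟨γ, Finset.mem_singleton_self γ⟩, S)
      have hg : Injective g := fun x y hxy => (Prod.ext_iff.1 hxy).2
      have h1 := (hZind {γ}).precomp hg
      exact h1
    rw [iIndepFun.map_fun_eq_pi_map (fun S => (hZm (γ, S)).aemeasurable) (hI γ),
      iIndepFun.map_fun_eq_pi_map (fun S => (hZm (1, S)).aemeasurable) (hI 1)]
    congr 1
    funext S
    refine lab_law_eq P X hX _ _ ((hmp γ).measurable (hAm S)) ((hmp 1).measurable (hAm S)) ?_ ?_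
    · rw [(hmp γ).measure_preimage (hAm S).nullMeasurableSet]
      exact hAfin S
    · rw [(hmp γ).measure_preimage (hAm S).nullMeasurableSet,
        (hmp 1).measure_preimage (hAm S).nullMeasurableSet]

end Pool.Agent.BB
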