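import Pool.Agent.Lib_helper34.BB.Defs

/-!
PAT (MP_8d7770_pr): equality of enough counts implies closeness.
-/

open MeasureTheory ProbabilityTheory Set Metric Function
open scoped ENNReal NNReal

namespace Pool.Agent.BB

theorem pat_sep {H : Type} [MetricSpace H] {E : Set H} (hE : E.Finite) :
    ∃ δ : ℝ, 0 < δ ∧ ∀ x ∈ E, ∀ y ∈ E, x ≠ y → δ ≤ dist x y := by
  classical
  have hP : ((E ×ˢ E) ∩ {p | p.1 ≠ p.2}).Finite := (hE.prod hE).subset inter_subset_left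
  rcases ((E ×ˢ E) ∩ {p | p.1 ≠ p.2}).eq_empty_or_nonempty with h | h
  · refine ⟨1, one_pos, fun x hx y hy hxy => ?_⟩
    have : (x, y) ∈ (E ×ˢ E) ∩ {p | p.1 ≠ p.2} := ⟨⟨hx, hy⟩, hxy⟩
    rw [h] at this
    exact absurd this (notMem_empty _)
  · obtain ⟨p, hp, hmin⟩ := Set.exists_min_image _ (fun p : H × H => dist p.1 p.2) hP h
    exact ⟨dist p.1 p.2, dist_pos.2 hp.2, fun x hx y hy hxy => hmin (x, y) ⟨⟨hx, hy⟩, hxy⟩⟩

/-- PAT -/
theorem near_proof {H : Type} [MetricSpace H] {Γ : Type} [Group Γ] (θ : Γ →* Equiv.Perm H)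
    (hiso : ∀ γ, Isometry (θ γ)) (F : Set H) (hFD : FD θ F)
    (hlfF : ∀ (x : H) (R : ℝ), {γ | ∃ z, dist x z ≤ R ∧ θ γ z ∈ F}.Finite)
    (e : ℕ → Γ) (he : Surjective e) (q : ℕ → Set H) (hqF : ∀ j, q j ⊆ F)
    (hq1 : ∀ x ∈ F, ∀ ε > 0, ∃ j, x ∈ q j ∧ ∀ y ∈ q j, dist x y < ε)
    (hq2 : ∀ (x : H) (R : ℝ), ∃ j, F ∩ closedBall x R ⊆ q j)
    (hq3 : ∀ j, ∃ (x : H) (R : ℝ), q j ⊆ closedBall x R)
    (hq4 : ∀ i j, ∃ k, q k = q i ∩ q j)
    {C : Set H} (hlf : ∀ (x : H) (r : ℝ), (C ∩ closedBall x r).Finite) (o : H) (R : ℝ) :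
    ∃ ε₀ : ℝ, 0 < ε₀ ∧ ∀ ε : ℝ, 0 < ε → ε ≤ ε₀ → ∃ k, ∀ C', PatEq θ e q k C C' →
      Near C C' o R ε := by
  classical
  set G : Set Γ := {γ | ∃ z, dist o z ≤ R + 1 ∧ θ γ z ∈ F} with hGdef
  have hG : G.Finite := hlfF o (R + 1)
  choose idx hidx using he
  choose jj hjj using fun γ => hq2 (θ γ o) (R + 1)
  set D : Γ → Set H := fun γ => θ γ ⁻¹' q (jj γ) with hDdef
  have hD1 : ∀ γ z, dist o z ≤ R + 1 → θ γ z ∈ F → z ∈ D γ := by
    intro γ z hz hF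
    refine hjj γ ⟨hF, ?_⟩
    rw [mem_closedBall, (hiso γ).dist_eq, dist_comm]
    exact hz
  have hD2 : ∀ γ z, z ∈ D γ → θ γ z ∈ F := fun γ z hz => hqF _ hz
  have hDfin : ∀ γ, (C ∩ D γ).Finite := by
    intro γ
    obtain ⟨x, r, hx⟩ := hq3 (jj γ)
    refine (hlf ((θ γ).symm x) r).subset ?_
    rintro z ⟨hz, hzD⟩
    refine ⟨hz, ?_⟩
    rw [mem_closedBall, ← (hiso γ).dist_eq, Equiv.apply_symm_apply]
    exact hx hzD
  set E : Set H := ⋃ γ ∈ G, C ∩ D γ with hEdef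
  have hE : E.Finite := hG.biUnion fun γ _ => hDfin γ
  obtain ⟨δ, hδ, hsep⟩ := pat_sep hE
  refine ⟨min 1 (δ / 2), lt_min one_pos (half_pos hδ), fun ε hε hεle => ?_⟩
  have hε1 : ε ≤ 1 := hεle.trans (min_le_left _ _)
  have hεδ : 2 * ε ≤ δ := by
    have := hεle.trans (min_le_right _ _)
    linarith
  -- the small cells
  have hsm : ∀ γ x, x ∈ D γ → ∃ l, θ γ x ∈ q l ∧ (∀ y ∈ q l, dist (θ γ x) y < ε) ∧
      q l ⊆ q (jj γ) := by
    intro γ x hx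
    obtain ⟨j, hj, hj'⟩ := hq1 (θ γ x) (hD2 γ x hx) ε hε
    obtain ⟨l, hl⟩ := hq4 j (jj γ)
    refine ⟨l, ?_, ?_, ?_⟩
    · rw [hl]; exact ⟨hj, hx⟩
    · intro y hy
      rw [hl] at hy
      exact hj' y hy.1
    · rw [hl]; exact inter_subset_right
  choose! sm hsm1 hsm2 hsm3 using hsm
  have hdist : ∀ γ x, x ∈ D γ → ∀ z ∈ θ γ ⁻¹' q (sm γ x), dist x z < ε := by
    intro γ x hx z hz
    rw [← (hiso γ).dist_eq]
    exact hsm2 γ x hx _ hz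
  have hkfin : ((⋃ γ ∈ G, {idx γ, jj γ}) ∪ ⋃ γ ∈ G, sm γ '' (C ∩ D γ)).Finite :=
    (hG.biUnion fun γ _ => (Set.finite_singleton _).insert _).union
      (hG.biUnion fun γ _ => (hDfin γ).image _)
  obtain ⟨k, hk⟩ := hkfin.bddAbove
  refine ⟨k + 1, fun C' hC' => ?_⟩
  have hidxk : ∀ γ ∈ G, idx γ < k + 1 := fun γ hγ =>
    Nat.lt_succ_of_le (hk (Or.inl (mem_biUnion hγ (Or.inl rfl))))
  have hjjk : ∀ γ ∈ G, jj γ < k + 1 := fun γ hγ =>
    Nat.lt_succ_of_le (hk (Or.inl (mem_biUnion hγ (Or.inr rfl))))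
  have hsmk : ∀ γ ∈ G, ∀ x ∈ C ∩ D γ, sm γ x < k + 1 := fun γ hγ x hx =>
    Nat.lt_succ_of_le (hk (Or.inr (mem_biUnion hγ (mem_image_of_mem _ hx))))
  have hDc : ∀ γ ∈ G, cnt C (D γ) = cnt C' (D γ) := by
    intro γ hγ
    have := hC' (idx γ) (hidxk γ hγ) (jj γ) (hjjk γ hγ)
    rwa [hidx γ] at this
  have hsc : ∀ γ ∈ G, ∀ x ∈ C ∩ D γ, ∃ x', C' ∩ θ γ ⁻¹' q (sm γ x) = {x'} := by
    intro γ hγ x hx
    have h1 := hC' (idx γ) (hidxk γ hγ) (sm γ x) (hsmk γ hγ x hx)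
    rw [hidx γ] at h1
    have h2 : C ∩ θ γ ⁻¹' q (sm γ x) = {x} := by
      ext z
      simp only [mem_inter_iff, mem_preimage, mem_singleton_iff]
      constructor
      · rintro ⟨hz, hzq⟩
        by_contra hne
        have hzD : z ∈ D γ := hsm3 γ x hx.2 hzq
        have h3 := hsep x (mem_biUnion hγ hx) z (mem_biUnion hγ ⟨hz, hzD⟩)
          (fun h => hne h.symm)
        have h4 := hdist γ x hx.2 z hzq
        linarith
      · rintro rfl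
        exact ⟨hx.1, hsm1 γ z hx.2⟩
    have h3 : (C' ∩ θ γ ⁻¹' q (sm γ x)).encard = 1 := by
      have : cnt C (θ γ ⁻¹' q (sm γ x)) = 1 := by
        unfold cnt
        rw [h2, encard_singleton]
      rw [this] at h1
      exact h1.symm
    exact encard_eq_one.1 h3
  choose! f hf using hsc
  have hf1 : ∀ γ ∈ G, ∀ x ∈ C ∩ D γ, f γ x ∈ C' ∧ f γ x ∈ θ γ ⁻¹' q (sm γ x) := by
    intro γ hγ x hx
    have : f γ x ∈ C' ∩ θ γ ⁻¹' q (sm γ x) := by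
      rw [hf γ hγ x hx]; exact mem_singleton _
    exact this
  have hf2 : ∀ γ ∈ G, ∀ x ∈ C ∩ D γ, ∀ z ∈ C', z ∈ θ γ ⁻¹' q (sm γ x) → z = f γ x := by
    intro γ hγ x hx z hz hz'
    have : z ∈ C' ∩ θ γ ⁻¹' q (sm γ x) := ⟨hz, hz'⟩
    rw [hf γ hγ x hx] at this
    exact this
  -- every point of C' in D γ is one of the points f γ x
  have hsurj : ∀ γ ∈ G, C' ∩ D γ = f γ '' (C ∩ D γ) := by
    intro γ hγ
    have hinj : InjOn (f γ) (C ∩ D γ) := by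
      intro x hx y hy hxy
      by_contra hne
      have h1 := hdist γ x hx.2 _ (hf1 γ hγ x hx).2
      have h2 := hdist γ y hy.2 _ (hf1 γ hγ y hy).2
      rw [← hxy, dist_comm] at h2
      have h3 := hsep x (mem_biUnion hγ hx) y (mem_biUnion hγ hy) hne
      have h4 := dist_triangle x (f γ x) y
      linarith
    have hsub : f γ '' (C ∩ D γ) ⊆ C' ∩ D γ := by
      rintro _ ⟨x, hx, rfl⟩
      exact ⟨(hf1 γ hγ x hx).1, hsm3 γ x hx.2 (hf1 γ hγ x hx).2⟩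
    have hcard : (C' ∩ D γ).encard = (f γ '' (C ∩ D γ)).encard := by
      rw [hinj.encard_image]
      exact (hDc γ hγ).symm
    have hfin : (f γ '' (C ∩ D γ)).Finite := (hDfin γ).image _
    have hfin' : (C' ∩ D γ).Finite := by
      rw [← encard_lt_top_iff, hcard]
      exact hfin.encard_lt_top
    exact (hfin'.eq_of_subset_of_encard_le' hsub hcard.le).symm
  -- position of a point of C'
  have hpos : ∀ x' ∈ C', dist o x' ≤ R → ∃ γ ∈ G, ∃ x ∈ C ∩ D γ, x' = f γ x ∧ dist x x' < ε := by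
    intro x' hx' hd
    obtain ⟨γ, hγ⟩ := hFD.ex x'
    have hγG : γ ∈ G := ⟨x', by linarith, hγ⟩
    have hxD : x' ∈ C' ∩ D γ := ⟨hx', hD1 γ x' (by linarith) hγ⟩
    rw [hsurj γ hγG] at hxD
    obtain ⟨x, hx, rfl⟩ := hxD
    exact ⟨γ, hγG, x, hx, rfl, hdist γ x hx.2 _ (hf1 γ hγG x hx).2⟩
  refine ⟨?_, ?_, ?_⟩
  · intro x' hx' hd
    obtain ⟨γ, _, x, hx, _, hlt⟩ := hpos x' hx' hd
    exact ⟨x, hx.1, hlt⟩
  · intro x hx hd
    obtain ⟨γ, hγ⟩ := hFD.ex x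
    have hγG : γ ∈ G := ⟨x, by linarith, hγ⟩
    have hxD : x ∈ C ∩ D γ := ⟨hx, hD1 γ x (by linarith) hγ⟩
    exact ⟨f γ x, (hf1 γ hγG x hxD).1, hdist γ x hxD.2 _ (hf1 γ hγG x hxD).2⟩
  · intro x' hx' x'' hx'' hd' hd'' x hx hlt' hlt''
    obtain ⟨γ', hγ', x1, hx1, e1, hl1⟩ := hpos x' hx' hd'
    obtain ⟨γ'', hγ'', x2, hx2, e2, hl2⟩ := hpos x'' hx'' hd''
    have hxo : dist o x ≤ R + 1 := by
      have := dist_triangle o x' x
      rw [dist_comm x' x] at this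
      linarith
    obtain ⟨γ, hγ⟩ := hFD.ex x
    have hγG : γ ∈ G := ⟨x, hxo, hγ⟩
    have hxE : x ∈ E := mem_biUnion hγG ⟨hx, hD1 γ x hxo hγ⟩
    have h1 : x = x1 := by
      by_contra hne
      have h3 := hsep x hxE x1 (mem_biUnion hγ' hx1) hne
      have h4 := dist_triangle x x' x1
      rw [dist_comm x' x1] at h4
      linarith
    have h2 : x = x2 := by
      by_contra hne
      have h3 := hsep x hxE x2 (mem_biUnion hγ'' hx2) hne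
      have h4 := dist_triangle x x'' x2
      rw [dist_comm x'' x2] at h4
      linarith
    subst h1
    subst h2
    have h5 : γ' = γ'' := hFD.uniq x γ' γ'' (hD2 _ _ hx1.2) (hD2 _ _ hx2.2)
    subst h5
    rw [e1, e2]

end Pool.Agent.BB
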